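import Pool.Agent.H381R2.TheoremU

/-!
All solutions of `u_n(y) + 1 = z^2` with `y, z ≥ 2`: only `n = 2, 3`.
-/

set_option autoImplicit false

namespace Pool.Agent.H381R2

/-- Solutions of the Pell equation `X² - (y²-1) Y² = 1`. -/
lemma pell_sol (y : ℤ) (hy : 2 ≤ y) (N : ℕ) : ∀ X Y : ℤ, 1 ≤ X → 0 ≤ Y → Y.toNat ≤ N →
    X ^ 2 - (y ^ 2 - 1) * Y ^ 2 = 1 → ∃ n : ℕ, X = T y n ∧ Y = u y n := by
  induction N with
  | zero =>
    intro X Y hX hY hN h
    have hY0 : Y = 0 := by omega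
    subst hY0
    refine ⟨0, ?_, by simp⟩
    simp only [T_zero]
    nlinarith
  | succ N ih =>
    intro X Y hX hY hN h
    rcases eq_or_lt_of_le hY with hY0 | hYpos
    · refine ⟨0, ?_, by simpa using hY0.symm⟩
      rw [← hY0] at h
      simp only [T_zero]
      nlinarith
    · have hY1 : 1 ≤ Y := hYpos
      have hy2 : 3 ≤ y ^ 2 - 1 := by nlinarith
      have h1 : 0 ≤ y * Y - X := by
        by_contra hcon
        push Not at hcon
        have : (y * Y) ^ 2 < X ^ 2 := by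
          apply pow_lt_pow_left₀ (by linarith) (by positivity) (by norm_num)
        nlinarith
      have h2 : y * Y - X < Y := by
        by_contra hcon
        push Not at hcon
        have h3 : X ≤ (y - 1) * Y := by linarith
        have : X ^ 2 ≤ ((y - 1) * Y) ^ 2 := by
          apply pow_le_pow_left₀ (by linarith) h3
        have h4 : ((y - 1) * Y) ^ 2 ≤ (y ^ 2 - 1) * Y ^ 2 := by
          have : (y ^ 2 - 1) * Y ^ 2 - ((y - 1) * Y) ^ 2 = 2 * (y - 1) * Y ^ 2 := by ring
          have h5 : 0 ≤ 2 * (y - 1) * Y ^ 2 := by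
            apply mul_nonneg (by linarith) (by positivity)
          linarith
        linarith
      have h3 : 1 ≤ y * X - (y ^ 2 - 1) * Y := by
        by_contra hcon
        push Not at hcon
        have h4 : y * X ≤ (y ^ 2 - 1) * Y := by linarith
        have h5 : (y * X) ^ 2 ≤ ((y ^ 2 - 1) * Y) ^ 2 := by
          apply pow_le_pow_left₀ (by positivity) h4
        have h6 : (y * X) ^ 2 = y ^ 2 + y ^ 2 * (y ^ 2 - 1) * Y ^ 2 := by
          linear_combination y ^ 2 * h
        have h7 : ((y ^ 2 - 1) * Y) ^ 2 = y ^ 2 * (y ^ 2 - 1) * Y ^ 2 - (y ^ 2 - 1) * Y ^ 2 := by ring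
        have h8 : 0 ≤ (y ^ 2 - 1) * Y ^ 2 := by positivity
        nlinarith
      obtain ⟨n, hn1, hn2⟩ := ih (y * X - (y ^ 2 - 1) * Y) (y * Y - X) h3 h1 (by omega)
        (by linear_combination h)
      refine ⟨n + 1, ?_, ?_⟩
      · rw [T_succ, ← hn1, ← hn2]; ring
      · rw [u_succ, ← hn1, ← hn2]; ring

lemma u_rec {R : Type*} [CommRing R] (y : R) (n : ℕ) :
    u y (n + 2) = 2 * y * u y (n + 1) - u y n := by
  rw [u_succ y (n + 1), T_succ, u_succ]; ring

/-- `u_n ≡ n mod 4` for odd `y`. -/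
lemma u_mod_odd (y : ℤ) (hy : y % 2 = 1) (n : ℕ) :
    u y n % 4 = (n : ℤ) % 4 ∧ u y (n + 1) % 4 = ((n : ℤ) + 1) % 4 := by
  induction n with
  | zero => simp
  | succ n ih =>
    obtain ⟨h1, h2⟩ := ih
    refine ⟨by push_cast; exact h2, ?_⟩
    rw [u_rec]
    obtain ⟨k, hk⟩ : ∃ k, y = 2 * k + 1 := ⟨y / 2, by omega⟩
    have e : 2 * y * u y (n + 1) - u y n = 4 * (k * u y (n + 1)) + (2 * u y (n + 1) - u y n) := by
      rw [hk]; ring
    rw [e]
    push_cast
    omega

/-- `u_n` mod 4 for even `y`. -/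
lemma u_mod_even (y : ℤ) (hy : y % 2 = 0) (n : ℕ) :
    u y (4 * n) % 4 = 0 ∧ u y (4 * n + 1) % 4 = 1 ∧ u y (4 * n + 2) % 4 = 0 ∧
      u y (4 * n + 3) % 4 = 3 := by
  obtain ⟨k, hk⟩ : ∃ k, y = 2 * k := ⟨y / 2, by omega⟩
  have hrec : ∀ m, u y (m + 2) % 4 = (- u y m) % 4 := by
    intro m
    rw [u_rec]
    have e : 2 * y * u y (m + 1) - u y m = 4 * (k * u y (m + 1)) + (- u y m) := by
      rw [hk]; ring
    rw [e]
    omega
  induction n with
  | zero =>
    refine ⟨by simp, by simp, ?_, ?_⟩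
    · have := hrec 0
      simp only [u_zero] at this
      simpa using this
    · have := hrec 1
      simp only [u_one] at this
      simpa using this
  | succ n ih =>
    obtain ⟨h0, h1, h2, h3⟩ := ih
    have e2 := hrec (4 * n + 2)
    have e3 := hrec (4 * n + 3)
    have e4 := hrec (4 * n + 4)
    have e5 := hrec (4 * n + 5)
    have a4 : 4 * n + 2 + 2 = 4 * (n + 1) := by ring
    have a5 : 4 * n + 3 + 2 = 4 * (n + 1) + 1 := by ring
    have a6 : 4 * n + 4 + 2 = 4 * (n + 1) + 2 := by ring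
    have a7 : 4 * n + 5 + 2 = 4 * (n + 1) + 3 := by ring
    have b4 : 4 * n + 4 = 4 * (n + 1) := by ring
    have b5 : 4 * n + 5 = 4 * (n + 1) + 1 := by ring
    rw [a4] at e2
    rw [a5] at e3
    rw [a6, b4] at e4
    rw [a7, b5] at e5
    refine ⟨by omega, by omega, by omega, by omega⟩

lemma sq_mod4 (z : ℤ) : z ^ 2 % 4 = 0 ∨ z ^ 2 % 4 = 1 := by
  rcases Int.even_or_odd' z with ⟨k, hk | hk⟩
  · left
    have : z ^ 2 = 4 * k ^ 2 := by rw [hk]; ring
    omega
  · right
    have : z ^ 2 = 4 * (k ^ 2 + k) + 1 := by rw [hk]; ring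
    omega

/-- `y ∣ T_n u_n`. -/
lemma dvd_Tu (y : ℤ) (n : ℕ) : y ∣ u y n * T y n := by
  induction n with
  | zero => simp
  | succ n ih =>
    obtain ⟨k, hk⟩ := ih
    rw [T_succ, u_succ]
    refine ⟨T y n ^ 2 + y * u y n * T y n + (y ^ 2 - 1) * u y n ^ 2 + y * (u y n * T y n) - k, ?_⟩
    linear_combination (-1 : ℤ) * hk

lemma cop_uT (y : ℤ) (n : ℕ) : IsCoprime (u y n) (T y n) := by
  refine ⟨-(y ^ 2 - 1) * u y n, T y n, ?_⟩
  linear_combination norm_eq y n

lemma cop_two_of_odd (a : ℤ) (h : Odd a) : IsCoprime a 2 := by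
  obtain ⟨k, hk⟩ := h
  exact ⟨1, -k, by rw [hk]; ring⟩

/-- `T_k + (y+1) u_k` is coprime to `T_k - (y-1) u_k`. -/
lemma cop_AB (y : ℤ) (k : ℕ) :
    IsCoprime (T y k + (y + 1) * u y k) (T y k - (y - 1) * u y k) := by
  have hodd := cop_two_of_odd _ (odd_S y k)
  have hu : IsCoprime (T y k + (y + 1) * u y k) (u y k) := by
    have := (cop_uT y k).symm
    have h2 : IsCoprime (T y k + u y k * (y + 1)) (u y k) := IsCoprime.add_mul_left_left this (y + 1)
    rwa [mul_comm (u y k)] at h2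
  have hyc : IsCoprime (T y k + (y + 1) * u y k) y := by
    obtain ⟨c, hc⟩ := dvd_Tu y k
    have hn := norm_eq y k
    refine ⟨T y k + (y + 1) * u y k, -(2 * (y + 1) * (u y k) ^ 2 + 2 * (y + 1) * c), ?_⟩
    linear_combination hn + 2 * (y + 1) * hc
  have h3 : IsCoprime (T y k + (y + 1) * u y k) (2 * (y * u y k)) :=
    hodd.mul_right (hyc.mul_right hu)
  have h4 : IsCoprime (T y k + (y + 1) * u y k)
      (-(2 * (y * u y k)) + (T y k + (y + 1) * u y k) * 1) :=
    IsCoprime.add_mul_left_right h3.neg_right 1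
  have e : -(2 * (y * u y k)) + (T y k + (y + 1) * u y k) * 1 = T y k - (y - 1) * u y k := by ring
  rwa [e] at h4

/-- `T_i + (y+1) u_i` is coprime to `T_i + (y-1) u_i`. -/
lemma cop_SP (y : ℤ) (k : ℕ) :
    IsCoprime (T y k + (y + 1) * u y k) (T y k + (y - 1) * u y k) := by
  have hodd := cop_two_of_odd _ (odd_S y k)
  have hu : IsCoprime (T y k + (y + 1) * u y k) (u y k) := by
    have := (cop_uT y k).symm
    have h2 : IsCoprime (T y k + u y k * (y + 1)) (u y k) := IsCoprime.add_mul_left_left this (y + 1)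
    rwa [mul_comm (u y k)] at h2
  have h3 : IsCoprime (T y k + (y + 1) * u y k) (2 * u y k) := hodd.mul_right hu
  have h4 : IsCoprime (T y k + (y + 1) * u y k)
      (-(2 * u y k) + (T y k + (y + 1) * u y k) * 1) :=
    IsCoprime.add_mul_left_right h3.neg_right 1
  have e : -(2 * u y k) + (T y k + (y + 1) * u y k) * 1 = T y k + (y - 1) * u y k := by ring
  rwa [e] at h4

/-- A positive factor in a coprime factorisation of a square is a square. -/
lemma sq_of_cop {a b c : ℤ} (h : IsCoprime a b) (ha : 0 < a) (heq : a * b = c ^ 2) :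
    ∃ r : ℤ, a = r ^ 2 := by
  obtain ⟨r, hr | hr⟩ := Int.sq_of_isCoprime h heq
  · exact ⟨r, hr⟩
  · exfalso; nlinarith [sq_nonneg r]

/-- The index `n ≡ 0 mod 4`. -/
lemma case0 (y z : ℤ) (hy : 2 ≤ y) (l : ℕ) (hl : 0 < l) (h : z ^ 2 = 1 + u y (4 * l)) : False := by
  have e4 : 4 * l = 2 * (2 * l) := by ring
  rw [e4, u_two_mul] at h
  have hn := norm_eq y (2 * l)
  have hAB : (T y (2 * l) + (y + 1) * u y (2 * l)) * (T y (2 * l) - (y - 1) * u y (2 * l)) = z ^ 2 := by
    rw [h]; linear_combination hn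
  obtain ⟨h1, h2⟩ := Tu_pos y hy (2 * l)
  have hApos : 0 < T y (2 * l) + (y + 1) * u y (2 * l) := by
    have := mul_nonneg (by linarith : (0:ℤ) ≤ y + 1) h2
    linarith
  obtain ⟨a, ha⟩ := sq_of_cop (cop_AB y (2 * l)) hApos hAB
  exact theoremU y hy l hl a ha

/-- Elementary lemma: `t² = 2c² - 1` and `r² = 2t⁴ - 1` force `t² = 1`. -/
lemma lemmaL (c t r : ℤ) (h1 : t ^ 2 = 2 * c ^ 2 - 1) (h2 : r ^ 2 = 2 * t ^ 4 - 1)
    (ht : 1 < t ^ 2) : False := by
  -- reduce to nonnegative values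
  have key : (2 * |t| * |c| * |r|) ^ 2 = 2 * t ^ 2 * (t ^ 2 + 1) * (2 * t ^ 4 - 1) := by
    have : (2 * |t| * |c| * |r|) ^ 2 = 4 * (|t| ^ 2) * (|c| ^ 2) * (|r| ^ 2) := by ring
    rw [this, sq_abs, sq_abs, sq_abs, h2]
    linear_combination (-2 * t ^ 2 * (2 * t ^ 4 - 1)) * h1
  set m := 2 * |t| * |c| * |r| with hm
  have hm0 : 0 ≤ m := by positivity
  set s := t ^ 2 with hs
  have ht4 : t ^ 4 = s ^ 2 := by rw [hs]; ring
  rw [ht4] at key
  have hlt : m < s * (2 * s + 1) := by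
    by_contra hcon
    push Not at hcon
    have : (s * (2 * s + 1)) ^ 2 ≤ m ^ 2 := pow_le_pow_left₀ (by nlinarith) hcon 2
    nlinarith
  have hgt : s * (2 * s + 1) - 1 < m := by
    by_contra hcon
    push Not at hcon
    have : m ^ 2 ≤ (s * (2 * s + 1) - 1) ^ 2 := pow_le_pow_left₀ hm0 hcon 2
    nlinarith
  omega

lemma u_odd_of_odd (y : ℤ) (i : ℕ) : u y (2 * i + 1) % 2 = 1 := by
  have h : u y (2 * i + 1) = 1 + 2 * ((y ^ 2 - 1) * u y i ^ 2 + y * (u y i * T y i)) := by
    rw [u_succ, T_two_mul', u_two_mul]; ring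
  omega

/-- The index `n ≡ 3 mod 4`, `n ≥ 7`. -/
lemma case3 (y z : ℤ) (hy : 2 ≤ y) (j : ℕ) (hj : 2 ≤ j) (h : z ^ 2 = 1 + u y (4 * j - 1)) :
    False := by
  obtain ⟨j', rfl⟩ : ∃ j', j = j' + 1 := ⟨j - 1, by omega⟩
  -- m = 2j - 1
  have e1 : 4 * (j' + 1) - 1 = 2 * (2 * j' + 1) + 1 := by omega
  rw [e1] at h
  set m := 2 * j' + 1 with hm
  have e2 : u y (2 * m + 1) + 1 = 2 * T y m * u y (m + 1) := by
    rw [u_succ y (2 * m), T_two_mul', u_two_mul, u_succ y m]
    linear_combination (-2 : ℤ) * norm_eq y m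
  have e3 : m + 1 = 2 * (j' + 1) := by omega
  set j := j' + 1 with hjdef
  have hz : z ^ 2 = 4 * (u y j * T y j * T y m) := by
    rw [e3, u_two_mul] at e2
    linear_combination h + e2
  obtain ⟨z', rfl⟩ : ∃ z', z = 2 * z' := by
    have : (2 : ℤ) ∣ z := by
      have h2 : (2 : ℤ) ∣ z ^ 2 := by rw [hz]; exact ⟨2 * (u y j * T y j * T y m), by ring⟩
      exact Int.prime_two.dvd_of_dvd_pow h2
    exact this
  have hz' : z' ^ 2 = u y j * T y j * T y m := by nlinarith
  obtain ⟨s1, hs1⟩ := dvd_Tu y j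
  -- T_m in terms of j
  have hTm : T y m = y * (2 * T y j ^ 2 - 1 - 2 * (y ^ 2 - 1) * s1) := by
    have h1 : T y (2 * j) = y * T y m + (y ^ 2 - 1) * u y m := by
      rw [← e3, T_succ]
    have h2 : u y (2 * j) = T y m + y * u y m := by
      rw [← e3, u_succ]
    rw [T_two_mul] at h1
    rw [u_two_mul] at h2
    linear_combination (-y) * h1 + (y ^ 2 - 1) * h2 - 2 * (y ^ 2 - 1) * hs1
  set t1 := 2 * T y j ^ 2 - 1 - 2 * (y ^ 2 - 1) * s1 with ht1
  have hcop : IsCoprime s1 t1 := by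
    have h2j := norm_eq y (2 * j)
    rw [T_two_mul, u_two_mul] at h2j
    -- t1^2 = 1 mod s1
    refine ⟨-(4 * (y ^ 2 - 1) * y ^ 2 * s1) + 4 * (y ^ 2 - 1) * (2 * T y j ^ 2 - 1)
        - 4 * (y ^ 2 - 1) ^ 2 * s1, t1, ?_⟩
    have h4 : (2 * u y j * T y j) ^ 2 = 4 * (y * s1) ^ 2 := by
      rw [← hs1]; ring
    rw [h4] at h2j
    rw [ht1]
    linear_combination h2j
  have hyz : y ^ 2 * (s1 * t1) = z' ^ 2 := by
    rw [hz', hTm, hs1]; ring
  have hydvd : y ∣ z' := by
    rw [← Int.pow_dvd_pow_iff (n := 2) (by norm_num)]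
    exact ⟨s1 * t1, hyz.symm⟩
  obtain ⟨w, rfl⟩ := hydvd
  have hyne : y ^ 2 ≠ 0 := by positivity
  have hst : s1 * t1 = w ^ 2 := by
    have : y ^ 2 * (s1 * t1) = y ^ 2 * w ^ 2 := by rw [hyz]; ring
    exact mul_left_cancel₀ hyne this
  obtain ⟨hTj, huj⟩ := Tu_pos y hy j
  have hujpos := u_pos y hy j (by omega)
  have hs1pos : 0 < s1 := by
    have : 0 < y * s1 := by rw [← hs1]; nlinarith
    nlinarith
  obtain ⟨v, hv⟩ := sq_of_cop hcop hs1pos hst
  rw [hv] at hs1
  -- now u_j T_j = y v^2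
  rcases Nat.even_or_odd' j with ⟨i, hi | hi⟩
  · -- j = 2 i
    obtain ⟨s', hs'⟩ := dvd_Tu y i
    rw [hi, u_two_mul] at hs1
    have hq : (2 * s') * T y (2 * i) = v ^ 2 := by
      have hyne' : y ≠ 0 := by positivity
      apply mul_left_cancel₀ hyne'
      rw [← hs1]
      linear_combination (-2 * T y (2 * i)) * hs'
    have hcop2 : IsCoprime (2 * s') (T y (2 * i)) := by
      have h5 := cop_uT y (2 * i)
      rw [u_two_mul] at h5
      have h6 : 2 * u y i * T y i = y * (2 * s') := by linear_combination 2 * hs'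
      rw [h6] at h5
      exact h5.of_mul_left_right
    have hi1 : 1 ≤ i := by omega
    have hTi := (Tu_pos y hy i).1
    have hui := u_pos y hy i hi1
    have hs'pos : 0 < s' := by
      have : 0 < y * s' := by rw [← hs']; nlinarith
      nlinarith
    have hT2i := (Tu_pos y hy (2 * i)).1
    obtain ⟨q, hqq⟩ := sq_of_cop hcop2 (by linarith) hq
    obtain ⟨r, hr⟩ := sq_of_cop hcop2.symm (by linarith) (by rw [mul_comm]; exact hq)
    rw [T_two_mul] at hr
    rcases Nat.even_or_odd' i with ⟨i', hi' | hi'⟩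
    · -- i = 2 i'
      have hi'1 : 1 ≤ i' := by omega
      obtain ⟨σ, hσ⟩ := dvd_Tu y i'
      have hTicop : IsCoprime (2 * (2 * σ)) (T y i) := by
        have h5 := cop_uT y i
        have h6 : u y i = y * (2 * σ) := by
          rw [hi', u_two_mul]; linear_combination 2 * hσ
        rw [h6] at h5
        have h7 : IsCoprime (2 : ℤ) (T y i) := by
          refine ⟨T y i' ^ 2, -1, ?_⟩
          rw [hi', T_two_mul]; ring
        exact h7.mul_left h5.of_mul_left_right
      have h8 : (2 * (2 * σ)) * T y i = q ^ 2 := by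
        have hyne' : y ≠ 0 := by positivity
        apply mul_left_cancel₀ hyne'
        have h6 : u y i = y * (2 * σ) := by
          rw [hi', u_two_mul]; linear_combination 2 * hσ
        rw [← hqq]
        rw [h6] at hs'
        linear_combination 2 * hs'
      obtain ⟨t, ht⟩ := sq_of_cop hTicop.symm (by linarith) (by rw [mul_comm]; exact h8)
      have hTi' := T_two_mul y i'
      rw [← hi', ht] at hTi'
      have ht1 : 1 < t ^ 2 := by
        rw [hTi']
        obtain ⟨a1, a2⟩ := Tu_pos y hy i'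
        have hn := norm_eq y i'
        have hu1 := u_pos y hy i' hi'1
        have h9 : (3:ℤ) * 1 ≤ (y ^ 2 - 1) * u y i' ^ 2 :=
          mul_le_mul (by nlinarith) (by nlinarith) (by norm_num) (by nlinarith)
        nlinarith
      exact lemmaL (T y i') t r hTi' (by rw [← hr, ht]; ring) ht1
    · -- i odd
      have hTiodd : T y i % 2 = 1 := by
        rcases Int.even_or_odd' (T y i) with ⟨k, hk | hk⟩
        · exfalso
          have h9 : r ^ 2 = 4 * (2 * k ^ 2) - 1 := by rw [← hr, hk]; ring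
          have := sq_mod4 r
          omega
        · omega
      have huiodd : u y i % 2 = 1 := by rw [hi']; exact u_odd_of_odd y i'
      have hprod : (u y i * T y i) % 2 = 1 := by
        rw [Int.mul_emod, hTiodd, huiodd]; norm_num
      rw [hs'] at hprod
      have hs'odd : s' % 2 = 1 := by
        rcases Int.even_or_odd' s' with ⟨k, hk | hk⟩
        · exfalso
          rw [hk] at hprod
          have : y * (2 * k) = 2 * (y * k) := by ring
          omega
        · omega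
      have := sq_mod4 q
      omega
  · -- j = 2 i + 1 odd
    have hTjy : ∃ t, T y j = y * t := by
      -- y divides T_j for odd j
      have : y ∣ T y j := by
        have hcopy : IsCoprime y (u y j) := by
          rw [hi, u_succ, T_two_mul']
          obtain ⟨c, hc⟩ := dvd_Tu y i
          have hn := norm_eq y i
          -- u_j = 1 + 2 (y²-1) u_i² + y u_{2i}; square is 1 mod y
          have hn2 := norm_eq y (2 * i + 1)
          obtain ⟨c2, hc2⟩ := dvd_Tu y (2 * i)
          have e9 : T y (2 * i) ^ 2 + u y (2 * i) ^ 2 = 1 + y * (y * u y (2 * i) ^ 2) := by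
            linear_combination norm_eq y (2 * i)
          -- u_{2i} = 2 u_i T_i = 2 y c
          have e10 : u y (2 * i) = y * (2 * c) := by rw [u_two_mul]; linear_combination 2 * hc
          have e11 : 1 + 2 * (y ^ 2 - 1) * u y i ^ 2 = T y (2 * i) := by rw [T_two_mul']
          rw [e11]
          refine ⟨-(y * u y (2 * i) ^ 2) + u y (2 * i) * (2 * c) - T y (2 * i) * u y (2 * i),
            T y (2 * i), ?_⟩
          linear_combination e9 - (u y (2 * i)) * e10
        have h1 : y ∣ u y j * T y j := dvd_Tu y j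
        exact hcopy.dvd_of_dvd_mul_left h1
      exact this
    obtain ⟨t, ht⟩ := hTjy
    have h10 : u y j * t = v ^ 2 := by
      have hyne' : y ≠ 0 := by positivity
      apply mul_left_cancel₀ hyne'
      rw [← hs1, ht]; ring
    have hcop3 : IsCoprime (u y j) t := by
      have := cop_uT y j
      rw [ht] at this
      exact this.of_mul_right_right
    obtain ⟨q, hq⟩ := sq_of_cop hcop3 (by linarith) h10
    -- j ≡ 1 mod 4
    have hmod : j % 4 = 1 := by
      have h11 := sq_mod4 q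
      rw [← hq] at h11
      rcases Int.emod_two_eq_zero_or_one y with hy2 | hy2
      · have h12 := u_mod_even y hy2 (j / 4)
        by_contra hcon
        have h13 : j = 4 * (j / 4) + 3 := by omega
        rw [← h13] at h12
        omega
      · have h12 := (u_mod_odd y hy2 j).1
        omega
    obtain ⟨i', rfl⟩ : ∃ i', i = 2 * i' := ⟨i / 2, by omega⟩
    have hi'1 : 0 < i' := by omega
    have h14 : (T y (2 * i') + (y + 1) * u y (2 * i')) * (T y (2 * i') + (y - 1) * u y (2 * i')) = q ^ 2 := by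
      rw [← hq, hi, u_succ, T_two_mul' y (2 * i'), u_two_mul y (2 * i')]
      linear_combination norm_eq y (2 * i')
    obtain ⟨h1, h2⟩ := Tu_pos y hy (2 * i')
    have hApos : 0 < T y (2 * i') + (y + 1) * u y (2 * i') := by
      have := mul_nonneg (by linarith : (0:ℤ) ≤ y + 1) h2
      linarith
    obtain ⟨a, ha⟩ := sq_of_cop (cop_SP y (2 * i')) hApos h14
    exact theoremU y hy i' hi'1 a ha

/-- `2 T_M + 1` is divisible by `2y - 1` for `M = 2^s`, `s ≥ 1`. -/
lemma dvd_T_pow (y : ℤ) (s : ℕ) : (2 * y - 1) ∣ 2 * T y (2 ^ (s + 1)) + 1 := by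
  induction s with
  | zero =>
    have : T y (2 ^ (0 + 1)) = 2 * y ^ 2 - 1 := by
      have := T_two_mul y 1
      simpa using this
    rw [this]
    exact ⟨2 * y + 1, by ring⟩
  | succ s ih =>
    obtain ⟨k, hk⟩ := ih
    have : T y (2 ^ (s + 1 + 1)) = 2 * T y (2 ^ (s + 1)) ^ 2 - 1 := by
      rw [pow_succ, mul_comm, T_two_mul]
    rw [this]
    refine ⟨k * (2 * T y (2 ^ (s + 1)) - 1), ?_⟩
    linear_combination (2 * T y (2 ^ (s + 1)) - 1) * hk

/-- `u_{r + 2 M t} ≡ (-1)^t u_r mod T_M`. -/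
lemma u_shift (y : ℤ) (M r t : ℕ) : ∃ k, u y (r + 2 * M * t) = (-1) ^ t * u y r + T y M * k := by
  induction t with
  | zero => exact ⟨0, by simp⟩
  | succ t ih =>
    obtain ⟨k, hk⟩ := ih
    have e : r + 2 * M * (t + 1) = (r + 2 * M * t) + 2 * M := by ring
    rw [e, u_add, T_two_mul, u_two_mul, hk]
    refine ⟨2 * ((-1) ^ t * u y r + T y M * k) * T y M - k + 2 * T y (r + 2 * M * t) * u y M, ?_⟩
    ring

/-- The index `n ≡ 2 mod 4`, `n ≥ 6`, with `y` even. -/
lemma case2 (y z : ℤ) (hy : 2 ≤ y) (hy2 : y % 2 = 0) (m : ℕ) (hm : 0 < m)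
    (h : z ^ 2 = 1 + u y (2 + 4 * m)) : False := by
  -- first: y ≡ 0 mod 4
  have hy4 : y % 4 = 0 := by
    have hu : ∀ k : ℕ, u y (2 + 4 * k) % 8 = (2 * y) % 8 := by
      intro k
      induction k with
      | zero =>
        have : u y 2 = 2 * y := by
          have := u_rec y 0
          simpa using this
        simp [this]
      | succ k ih =>
        obtain ⟨w, hw⟩ : ∃ w, y = 2 * w := ⟨y / 2, by omega⟩
        have e : 2 + 4 * (k + 1) = (2 + 4 * k) + 2 * (2 * 1) := by ring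
        have h4 : u y (2 + 4 * (k + 1)) = u y (2 + 4 * k) +
            8 * (u y (2 + 4 * k) * (y ^ 4 - y ^ 2) + T y (2 + 4 * k) * w * (2 * y ^ 2 - 1)) := by
          rw [e, u_add, T_two_mul, u_two_mul, T_two_mul, u_two_mul, T_one, u_one]
          have : y * y = 2 * w * y := by rw [← hw]
          linear_combination (4 * T y (2 + 4 * k) * (2 * y ^ 2 - 1)) * hw
        omega
    have h1 := hu m
    have hzodd : z % 2 = 1 := by
      rcases Int.even_or_odd' z with ⟨k, hk | hk⟩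
      · exfalso
        have : z ^ 2 = 4 * k ^ 2 := by rw [hk]; ring
        omega
      · omega
    obtain ⟨k, hk⟩ : ∃ k, z = 2 * k + 1 := ⟨z / 2, by omega⟩
    have h8 : z ^ 2 % 8 = 1 := by
      obtain ⟨c, hc⟩ : ∃ c, k * (k + 1) = 2 * c := by
        obtain ⟨c, hc⟩ := Int.even_mul_succ_self k
        exact ⟨c, by rw [hc]; ring⟩
      have : z ^ 2 = 8 * c + 1 := by rw [hk]; linear_combination 4 * hc
      omega
    omega
  -- write m = 2^s * t with t odd
  obtain ⟨s, t, htodd, hmt⟩ : ∃ s t : ℕ, ¬ 2 ∣ t ∧ m = 2 ^ s * t :=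
    Nat.exists_eq_pow_mul_and_not_dvd hm.ne' 2 (by norm_num)
  have hshift := u_shift y (2 ^ (s + 1)) 2 t
  obtain ⟨k, hk⟩ := hshift
  have e1 : 2 + 2 * 2 ^ (s + 1) * t = 2 + 4 * m := by rw [hmt]; ring
  rw [e1] at hk
  have htneg : (-1 : ℤ) ^ t = -1 := Odd.neg_one_pow (Nat.odd_iff.mpr (by omega))
  have hu2 : u y 2 = 2 * y := by
    have := u_rec y 0
    simpa using this
  rw [htneg, hu2] at hk
  set TM := T y (2 ^ (s + 1)) with hTM
  have hTMpos : 1 ≤ TM := (Tu_pos y hy _).1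
  have hTModd : TM % 2 = 1 := by
    have : TM = 2 * T y (2 ^ s) ^ 2 - 1 := by
      rw [hTM, pow_succ, mul_comm, T_two_mul]
    omega
  obtain ⟨N, hN⟩ : ∃ N : ℕ, (N : ℤ) = TM := ⟨TM.toNat, by omega⟩
  obtain ⟨Q, hQ⟩ : ∃ Q : ℕ, (Q : ℤ) = 2 * y - 1 := ⟨(2 * y - 1).toNat, by omega⟩
  have hQ8 : Q % 8 = 7 := by omega
  have hQ4 : Q % 4 = 3 := by omega
  have hQodd : Odd Q := Nat.odd_iff.mpr (by omega)
  have hNodd2 : N % 2 = 1 := by omega
  have hNodd : Odd N := Nat.odd_iff.mpr hNodd2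
  -- J(z^2 | N) = J(-Q | N)
  have hJ1 : jacobiSym (z ^ 2) N = jacobiSym (-(Q : ℤ)) N := by
    apply jacobiSym.mod_left'
    rw [h, hk, hQ, hN]
    have : 1 + (-1 * (2 * y) + TM * k) = -(2 * y - 1) + TM * k := by ring
    rw [this, Int.add_mul_emod_self_left]
  -- J(N | Q) = -1
  have hJ2 : jacobiSym (N : ℤ) Q = -1 := by
    have h2 : jacobiSym (2 : ℤ) Q = 1 := by
      rw [jacobiSym.at_two hQodd, ZMod.χ₈_nat_eq_if_mod_eight]
      simp [hQ8]
      omega
    have h3 : jacobiSym (-1 : ℤ) Q = -1 := by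
      rw [jacobiSym.at_neg_one hQodd, ZMod.χ₄_nat_three_mod_four hQ4]
    have h4 : jacobiSym (2 * (N : ℤ)) Q = jacobiSym (-1 : ℤ) Q := by
      apply jacobiSym.mod_left'
      rw [hN, hQ]
      obtain ⟨c, hc⟩ := dvd_T_pow y s
      have : 2 * TM = -1 + (2 * y - 1) * c := by rw [← hc]; ring
      rw [this, Int.add_mul_emod_self_left]
    rw [jacobiSym.mul_left, h2, h3, one_mul] at h4
    exact h4
  have hJ3 : jacobiSym (-(Q : ℤ)) N = -1 := by
    rw [jacobiSym.neg _ hNodd]
    rcases (by omega : N % 4 = 1 ∨ N % 4 = 3) with hN4 | hN4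
    · rw [ZMod.χ₄_nat_one_mod_four hN4, one_mul,
        jacobiSym.quadratic_reciprocity_one_mod_four' hQodd hN4, hJ2]
    · rw [ZMod.χ₄_nat_three_mod_four hN4,
        jacobiSym.quadratic_reciprocity_three_mod_four hQ4 hN4, hJ2]
      norm_num
  rw [hJ3, jacobiSym.pow_left] at hJ1
  nlinarith [sq_nonneg (jacobiSym z N)]

/-- All `n` with `u_n(y) + 1` a square `> 1`. -/
theorem main (y z : ℤ) (hy : 2 ≤ y) (hz : 2 ≤ z) (n : ℕ) (h : z ^ 2 - 1 = u y n) :
    n = 2 ∨ n = 3 := by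
  have h' : z ^ 2 = 1 + u y n := by linarith
  have hsq := sq_mod4 z
  rw [h'] at hsq
  obtain ⟨m, hm⟩ : ∃ m, m = n / 4 := ⟨_, rfl⟩
  rcases (by omega : n = 4 * m ∨ n = 4 * m + 1 ∨ n = 4 * m + 2 ∨ n = 4 * m + 3) with hn | hn | hn | hn
  · exfalso
    rcases Nat.eq_zero_or_pos m with h0 | h0
    · rw [hn, h0] at h'
      simp only [mul_zero, u_zero] at h'
      nlinarith
    · rw [hn] at h'
      exact case0 y z hy m h0 h'
  · exfalso
    rcases Int.emod_two_eq_zero_or_one y with hy2 | hy2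
    · have := (u_mod_even y hy2 m).2.1
      rw [← hn] at this
      omega
    · have := (u_mod_odd y hy2 n).1
      omega
  · rcases Nat.eq_zero_or_pos m with h0 | h0
    · left; omega
    · exfalso
      rcases Int.emod_two_eq_zero_or_one y with hy2 | hy2
      · apply case2 y z hy hy2 m h0
        rw [h', hn, add_comm (4 * m) 2]
      · have := (u_mod_odd y hy2 n).1
        omega
  · rcases Nat.eq_zero_or_pos m with h0 | h0
    · right; omega
    · exfalso
      apply case3 y z hy (m + 1) (by omega)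
      rw [h', hn]
      congr 2

end Pool.Agent.H381R2
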