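import Mathlib

/-!
Chebyshev-type sequences over a commutative ring:
`T y n` and `u y n` are the coordinates of the `n`-th power of `y + sqrt (y^2-1)`.
-/

set_option autoImplicit false

namespace Pool.Agent.H381R2

variable {R : Type*} [CommRing R]

/-- The pair `(T_n(y), u_n(y))`. -/
def tu (y : R) : ℕ → R × R
  | 0 => (1, 0)
  | n + 1 => (y * (tu y n).1 + (y ^ 2 - 1) * (tu y n).2, (tu y n).1 + y * (tu y n).2)

/-- `T_n(y)`, Chebyshev polynomial of the first kind. -/
def T (y : R) (n : ℕ) : R := (tu y n).1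

/-- `u_n(y) = U_{n-1}(y)`, Chebyshev polynomial of the second kind. -/
def u (y : R) (n : ℕ) : R := (tu y n).2

@[simp] lemma T_zero (y : R) : T y 0 = 1 := rfl
@[simp] lemma u_zero (y : R) : u y 0 = 0 := rfl
lemma T_succ (y : R) (n : ℕ) : T y (n + 1) = y * T y n + (y ^ 2 - 1) * u y n := rfl
lemma u_succ (y : R) (n : ℕ) : u y (n + 1) = T y n + y * u y n := rfl
@[simp] lemma T_one (y : R) : T y 1 = y := by rw [T_succ]; simp
@[simp] lemma u_one (y : R) : u y 1 = 1 := by rw [u_succ]; simp

lemma norm_eq (y : R) (n : ℕ) : T y n ^ 2 - (y ^ 2 - 1) * u y n ^ 2 = 1 := by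
  induction n with
  | zero => simp
  | succ n ih => rw [T_succ, u_succ]; linear_combination ih

lemma TU_add (y : R) (m n : ℕ) :
    T y (m + n) = T y m * T y n + (y ^ 2 - 1) * u y m * u y n ∧
      u y (m + n) = u y m * T y n + T y m * u y n := by
  induction n with
  | zero => simp
  | succ n ih =>
    obtain ⟨h1, h2⟩ := ih
    rw [← add_assoc, T_succ y (m + n), u_succ y (m + n), h1, h2, T_succ y n, u_succ y n]
    constructor <;> ring

lemma T_add (y : R) (m n : ℕ) :
    T y (m + n) = T y m * T y n + (y ^ 2 - 1) * u y m * u y n := (TU_add y m n).1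

lemma u_add (y : R) (m n : ℕ) :
    u y (m + n) = u y m * T y n + T y m * u y n := (TU_add y m n).2

lemma T_two_mul (y : R) (n : ℕ) : T y (2 * n) = 2 * T y n ^ 2 - 1 := by
  rw [two_mul, T_add]; linear_combination (-1 : R) * norm_eq y n

lemma T_two_mul' (y : R) (n : ℕ) : T y (2 * n) = 1 + 2 * (y ^ 2 - 1) * u y n ^ 2 := by
  rw [two_mul, T_add]; linear_combination norm_eq y n

lemma u_two_mul (y : R) (n : ℕ) : u y (2 * n) = 2 * u y n * T y n := by
  rw [two_mul, u_add]; ring

end Pool.Agent.H381R2
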