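import Pool.Agent.H381R2.UnitGroup

/-!
Theorem U: `T_{2l}(y) + (y+1) u_{2l}(y)` is not a square for `y ≥ 2`, `l ≥ 1`.
-/

set_option autoImplicit false

namespace Pool.Agent.H381R2

lemma Tu_pos (y : ℤ) (hy : 2 ≤ y) (n : ℕ) : 1 ≤ T y n ∧ 0 ≤ u y n := by
  induction n with
  | zero => simp
  | succ n ih =>
    obtain ⟨h1, h2⟩ := ih
    rw [T_succ, u_succ]
    constructor
    · nlinarith [mul_nonneg (by nlinarith : (0:ℤ) ≤ y ^ 2 - 1) h2]
    · nlinarith [mul_nonneg (by linarith : (0:ℤ) ≤ y) h2]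

lemma u_pos (y : ℤ) (hy : 2 ≤ y) (n : ℕ) (hn : 0 < n) : 1 ≤ u y n := by
  obtain ⟨m, rfl⟩ : ∃ m, n = m + 1 := ⟨n - 1, by omega⟩
  obtain ⟨h1, h2⟩ := Tu_pos y hy m
  rw [u_succ]
  nlinarith [mul_nonneg (by linarith : (0:ℤ) ≤ y) h2]

lemma odd_S (y : ℤ) (n : ℕ) : Odd (T y n + (y + 1) * u y n) := by
  have h := norm_eq y n
  have : Odd ((T y n + (y + 1) * u y n) ^ 2) := by
    refine ⟨y * (y + 1) * u y n ^ 2 + (y + 1) * T y n * u y n, ?_⟩
    linear_combination h
  exact (Int.odd_pow.mp this).resolve_right (by norm_num)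

theorem theoremU (y : ℤ) (hy : 2 ≤ y) (l : ℕ) (hl : 0 < l) (a : ℤ) :
    T y (2 * l) + (y + 1) * u y (2 * l) ≠ a ^ 2 := by
  intro h0
  -- may assume a ≥ 1
  wlog ha : 1 ≤ a generalizing a with H
  · rcases le_or_gt a 0 with h | h
    · rcases eq_or_lt_of_le h with h' | h'
      · subst h'
        obtain ⟨h1, h2⟩ := Tu_pos y hy (2 * l)
        nlinarith [mul_nonneg (by linarith : (0:ℤ) ≤ y + 1) h2]
      · exact H (-a) (by rw [h0]; ring) (by omega)
    · exact ha (by omega)
  obtain ⟨l', rfl⟩ : ∃ l', l = l' + 1 := ⟨l - 1, by omega⟩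
  set l := l' + 1 with hldef
  have hal := al_mul y
  have hcc : 1 - cc y = al' y := by rw [cc]; ring
  have halc := al_cc y
  have hpp : ∀ n : ℕ, al y ^ n * al' y ^ n = 1 := fun n => by rw [← mul_pow, hal, one_pow]
  have h1 : (a : ℤ√(y ^ 2 - 1)) ^ 2 * cc y = al y ^ (2 * l) - al' y ^ (2 * l + 1) := by
    rw [← Int.cast_pow, ← h0, al_pow, al'_pow, T_succ, u_succ]
    ext
    · simp [cc, al']; ring
    · simp [cc, al']; ring
  let x : OO y := ⟨al y ^ (l + 1) * (al y ^ l - a * cc y), al y ^ (l + 1) * (a - al y ^ l)⟩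
  have hxN : nm y x = 1 := by
    have e1 : nm y x = (al y ^ (l + 1)) ^ 2 * ((1 - cc y) * (al y ^ (2 * l) - a ^ 2 * cc y)) := by
      simp only [nm, x]
      rw [two_mul l, pow_add (al y) l l]
      ring
    rw [e1, hcc, h1]
    have e2 : (al y ^ (l + 1)) ^ 2 * (al' y * (al y ^ (2 * l) - (al y ^ (2 * l) - al' y ^ (2 * l + 1))))
        = al y ^ (2 * l + 2) * al' y ^ (2 * l + 2) := by
      ring
    rw [e2, hpp]
  have hAge := E_al_ge hy
  have htpos := th_pos hy
  have htlt := th_lt hy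
  have hth := th_sq hy
  have hEc : E hy (al y) * E hy (cc y) = E hy (al y) - 1 := by
    rw [← map_mul, al_cc, map_sub, map_one]
  have haR : (1 : ℝ) ≤ a := by exact_mod_cast ha
  have hphx : ph hy x * (1 + th hy) = E hy (al y) ^ l * (E hy (al y) ^ l + a * th hy) := by
    simp only [ph, x, map_mul, map_sub, map_pow, map_intCast]
    rw [← hth] at hEc ⊢
    rw [pow_succ]
    linear_combination (-(E hy (al y) ^ l * (E hy (al y) ^ l + a * th hy))) * hEc
  have hAl : 1 ≤ E hy (al y) ^ l := one_le_pow₀ (by linarith)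
  have hx1 : 1 ≤ ph hy x := by
    have h2 : (1 + th hy) ≤ ph hy x * (1 + th hy) := by
      rw [hphx]
      nlinarith [mul_pos (by linarith : (0:ℝ) < a) htpos]
    nlinarith
  obtain ⟨n, hn⟩ := unit_group hy x hxN hx1
  -- the key equation
  have hkey : T (2 * al y - 1) n + 2 * (al y - 1) * u (2 * al y - 1) n = al y ^ (2 * l) := by
    have hre : x.re + cc y * x.im = al y ^ (2 * l) := by
      have e1 : x.re + cc y * x.im = al y ^ l * al y ^ l * (al y * (1 - cc y)) := by
        simp only [x]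
        ring
      rw [e1, hcc, hal, mul_one, ← pow_add, two_mul]
    rw [← hre, hn, om_pow]
    simp only
    linear_combination (-2 * u (2 * al y - 1) n) * halc
  rcases Nat.eq_zero_or_pos n with hn0 | hnpos
  · -- n = 0
    subst hn0
    simp only [T_zero, u_zero, mul_zero, add_zero] at hkey
    rw [al_pow] at hkey
    have := congrArg Zsqrtd.im hkey
    simp only [Zsqrtd.im_one] at this
    have h3 := u_pos y hy (2 * l) (by omega)
    omega
  · obtain ⟨v, h, hvh⟩ := r_form (al y) n hnpos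
    rw [hkey] at hvh
    -- α^{2l} - 1 = 4(α-1) 2^v (1+2h)
    have hsq : al y ^ l - al' y ^ l = (⟨0, 2 * u y l⟩ : ℤ√(y ^ 2 - 1)) := by
      rw [al_pow, al'_pow]
      ext <;> simp <;> ring
    have hdiff : al y - al' y = (⟨0, 2⟩ : ℤ√(y ^ 2 - 1)) := by
      ext <;> simp [al, al']
    have e1 : al y ^ (2 * l) - 1 = al y ^ l * (al y ^ l - al' y ^ l) := by
      rw [mul_sub, hpp, two_mul, pow_add]
    have e2 : (al y - 1) * (al y + 1) = al y * (al y - al' y) := by
      linear_combination hal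
    have e3 : al y ^ l * (al y + 1) * (al y ^ l - al' y ^ l)
        = 4 * (2 ^ v * (1 + 2 * h)) * (al y * (al y - al' y)) := by
      rw [← e2]
      rw [e1] at hvh
      linear_combination (al y + 1) * hvh
    have e4 : al y ^ l' * (al y + 1) * (al y ^ l - al' y ^ l)
        = 4 * (2 ^ v * (1 + 2 * h)) * (al y - al' y) := by
      have : al' y * (al y ^ l * (al y + 1) * (al y ^ l - al' y ^ l))
        = al' y * (4 * (2 ^ v * (1 + 2 * h)) * (al y * (al y - al' y))) := by rw [e3]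
      have e5 : al' y * (al y ^ l * (al y + 1) * (al y ^ l - al' y ^ l))
        = (al y * al' y) * (al y ^ l' * (al y + 1) * (al y ^ l - al' y ^ l)) := by
        rw [hldef, pow_succ (al y)]; ring
      rw [e5, hal, one_mul] at this
      rw [this]
      linear_combination (4 * (2 ^ v * (1 + 2 * h)) * (al y - al' y)) * hal
    rw [hsq, hdiff] at e4
    have e6 : al y ^ l' * (al y + 1) = (⟨T y (l' + 1) + T y l', u y (l' + 1) + u y l'⟩ : ℤ√(y ^ 2 - 1)) := by
      have : al y ^ l' * (al y + 1) = al y ^ (l' + 1) + al y ^ l' := by rw [pow_succ (al y)]; ring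
      rw [this, al_pow, al_pow]
      rfl
    have e7 : (⟨0, 2 * u y l⟩ : ℤ√(y ^ 2 - 1)) = ((u y l : ℤ) : ℤ√(y ^ 2 - 1)) * ⟨0, 2⟩ := by
      ext <;> simp; ring
    have e8 : (4 : ℤ√(y ^ 2 - 1)) * (2 ^ v * (1 + 2 * h)) =
        ⟨2 ^ (v + 2) * (1 + 2 * h.re), 2 ^ (v + 2) * (2 * h.im)⟩ := by
      have : (4 : ℤ√(y ^ 2 - 1)) * (2 ^ v * (1 + 2 * h)) = ((2 ^ (v + 2) : ℤ) : ℤ√(y ^ 2 - 1)) * (1 + 2 * h) := by
        push_cast; ring
      rw [this]
      generalize (2 : ℤ) ^ (v + 2) = w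
      ext <;> simp
    rw [e6, e7, e8] at e4
    have him := congrArg Zsqrtd.im e4
    have hre := congrArg Zsqrtd.re e4
    simp only [Zsqrtd.im_mul, Zsqrtd.re_mul, Zsqrtd.re_intCast, Zsqrtd.im_intCast] at him hre
    have hD : (0 : ℤ) < y ^ 2 - 1 := by nlinarith
    have hre' : u y l * (T y (l' + 1) + T y l') = 2 ^ (v + 2) * (1 + 2 * h.re) := by
      have : 2 * (u y l * (T y (l' + 1) + T y l')) = 2 * (2 ^ (v + 2) * (1 + 2 * h.re)) := by
        linarith
      linarith
    have him' : u y l * (u y (l' + 1) + u y l') = 2 ^ (v + 2) * (2 * h.im) := by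
      have : (2 * (y ^ 2 - 1)) * (u y l * (u y (l' + 1) + u y l'))
          = (2 * (y ^ 2 - 1)) * (2 ^ (v + 2) * (2 * h.im)) := by
        linarith
      exact mul_left_cancel₀ (by positivity) this
    have hodd : Odd (u y (l' + 1) + u y l') := by
      have := odd_S y l'
      rw [u_succ]
      have e : T y l' + y * u y l' + u y l' = T y l' + (y + 1) * u y l' := by ring
      rw [e]; exact this
    have hdvd : (2 : ℤ) ^ (v + 3) ∣ u y l * (u y (l' + 1) + u y l') := by
      rw [him']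
      exact ⟨h.im, by ring⟩
    have hcop : IsCoprime ((2 : ℤ) ^ (v + 3)) (u y (l' + 1) + u y l') := by
      apply IsCoprime.pow_left
      rw [Int.isCoprime_iff_gcd_eq_one]
      have := Int.odd_iff.mp hodd
      rcases Int.emod_two_eq_zero_or_one (u y (l' + 1) + u y l') with h' | h'
      · omega
      · have h4 : Int.gcd 2 (u y (l' + 1) + u y l') ∣ 2 := by
          have := Int.gcd_dvd_left (a := 2) (b := u y (l' + 1) + u y l')
          exact_mod_cast this
        have h5 : ((Int.gcd 2 (u y (l' + 1) + u y l') : ℕ) : ℤ) ∣ (u y (l' + 1) + u y l') :=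
          Int.gcd_dvd_right ..
        rcases (Nat.dvd_prime Nat.prime_two).mp h4 with h6 | h6
        · exact h6
        · rw [h6] at h5
          push_cast at h5
          omega
    have hdvd2 : (2 : ℤ) ^ (v + 3) ∣ u y l := hcop.dvd_of_dvd_mul_right hdvd
    have hdvd3 : (2 : ℤ) ^ (v + 3) ∣ 2 ^ (v + 2) * (1 + 2 * h.re) := by
      rw [← hre']
      exact Dvd.dvd.mul_right hdvd2 _
    have hdvd4 : (2 : ℤ) ∣ 1 + 2 * h.re := by
      have : (2 : ℤ) ^ (v + 3) = 2 ^ (v + 2) * 2 := by ring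
      rw [this] at hdvd3
      exact (mul_dvd_mul_iff_left (by positivity)).mp hdvd3
    omega

end Pool.Agent.H381R2
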