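import Pool.Agent.H381R2.Cheb

/-!
2-adic shape of `T_n(Y) + (Y-1) u_n(Y) - 1` for `Y = 2 a - 1`.
-/

set_option autoImplicit false

namespace Pool.Agent.H381R2

variable {R : Type*} [CommRing R]

lemma T_odd (a : R) (m : ℕ) : ∃ h : R, T (2 * a - 1) m = 1 + 2 * h := by
  induction m with
  | zero => exact ⟨0, by simp⟩
  | succ m ih =>
    obtain ⟨h, hh⟩ := ih
    rw [T_succ, hh]
    exact ⟨-1 - h + a * (1 + 2 * h) + 2 * a * (a - 1) * u (2 * a - 1) m, by ring⟩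

lemma u_parity (a : R) (m : ℕ) : ∃ h : R, u (2 * a - 1) m = m + 2 * h := by
  induction m with
  | zero => exact ⟨0, by simp⟩
  | succ m ih =>
    obtain ⟨h, hh⟩ := ih
    obtain ⟨k, hk⟩ := T_odd a m
    rw [u_succ, hh, hk]
    refine ⟨k + (a - 1) * m + (2 * a - 1) * h, ?_⟩
    push_cast
    ring

lemma u_form (a : R) (m : ℕ) (hm : 0 < m) :
    ∃ (v : ℕ) (h : R), u (2 * a - 1) m = 2 ^ v * (1 + 2 * h) := by
  induction m using Nat.strong_induction_on with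
  | _ m ih =>
    rcases Nat.even_or_odd' m with ⟨k, rfl | rfl⟩
    · obtain ⟨v, h, hh⟩ := ih k (by omega) (by omega)
      obtain ⟨g, hg⟩ := T_odd a k
      refine ⟨v + 1, h + g + 2 * h * g, ?_⟩
      rw [u_two_mul, hh, hg]
      ring
    · obtain ⟨h, hh⟩ := u_parity a (2 * k + 1)
      refine ⟨0, k + h, ?_⟩
      rw [hh]
      push_cast
      ring

/-- For `n ≥ 1`, `T_n(Y) + (Y-1) u_n(Y) - 1 = 4 (a-1) * 2^v * (1 + 2h)` where `Y = 2a-1`. -/
lemma r_form (a : R) (n : ℕ) (hn : 0 < n) :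
    ∃ (v : ℕ) (h : R),
      T (2 * a - 1) n + 2 * (a - 1) * u (2 * a - 1) n - 1 = 4 * (a - 1) * (2 ^ v * (1 + 2 * h)) := by
  rcases Nat.even_or_odd' n with ⟨m, rfl | rfl⟩
  · obtain ⟨v, h, hh⟩ := u_form a m (by omega)
    obtain ⟨g, hg⟩ := T_odd a m
    refine ⟨v, h + (g + a * u (2 * a - 1) m) * (1 + 2 * h), ?_⟩
    have key : T (2 * a - 1) (2 * m) + 2 * (a - 1) * u (2 * a - 1) (2 * m) - 1
        = 4 * (a - 1) * (u (2 * a - 1) m * (T (2 * a - 1) m + 2 * a * u (2 * a - 1) m)) := by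
      rw [T_two_mul', u_two_mul]; ring
    rw [key, hg]
    linear_combination (4 * (a - 1) * (1 + 2 * g + 2 * a * u (2 * a - 1) m)) * hh
  · obtain ⟨v, h, hh⟩ := u_form a (m + 1) (by omega)
    obtain ⟨g, hg⟩ := T_odd a m
    refine ⟨v, h + (g + a * u (2 * a - 1) m) * (1 + 2 * h), ?_⟩
    have key : T (2 * a - 1) (2 * m + 1) + 2 * (a - 1) * u (2 * a - 1) (2 * m + 1) - 1
        = 4 * (a - 1) * (u (2 * a - 1) (m + 1) * (T (2 * a - 1) m + 2 * a * u (2 * a - 1) m)) := by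
      rw [T_succ, u_succ, T_two_mul', u_two_mul, u_succ]
      linear_combination (4 - 4 * a - (0:R)) * norm_eq (2 * a - 1) m
    rw [key, hg]
    linear_combination (4 * (a - 1) * (1 + 2 * g + 2 * a * u (2 * a - 1) m)) * hh

end Pool.Agent.H381R2
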