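import Pool.Agent.H381R2.TwoAdic

/-!
Theorem U: for `y ≥ 2` and `l ≥ 1` the number `T_{2l}(y) + (y+1) u_{2l}(y)` is not a square.
The proof determines the units of relative norm one in a quartic order.
-/

set_option autoImplicit false

namespace Pool.Agent.H381R2

open scoped QuadraticAlgebra

/-- An inequality used to show that an integer coordinate vanishes. -/
lemma key_real (A P P' : ℝ) (k : ℤ) (hA : 3.7 ≤ A) (h : P - P' = k * (A - 1 / A))
    (hP1 : 1 ≤ P) (hPA : P ^ 2 ≤ A) (hP' : P' ^ 2 ≤ 1) : k = 0 := by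
  have hApos : 0 < A := by linarith
  have hinv : 1 / A ≤ 0.2703 := by
    rw [div_le_iff₀ hApos]; nlinarith
  have hinv0 : 0 < 1 / A := by positivity
  have hP'1 : P' ≤ 1 := by nlinarith
  have hP'2 : -1 ≤ P' := by nlinarith
  have hdiff : 0 < A - 1 / A := by linarith
  rcases lt_trichotomy k 0 with hk | hk | hk
  · exfalso
    have : (k : ℝ) ≤ -1 := by exact_mod_cast (by omega : k ≤ -1)
    nlinarith
  · exact hk
  · exfalso
    have hk1 : (1 : ℝ) ≤ k := by exact_mod_cast (by omega : 1 ≤ k)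
    have h1 : A - 1 / A ≤ P + 1 := by nlinarith
    have h2 : A - 1.2703 ≤ P := by linarith
    have h3 : (A - 1.2703) ^ 2 ≤ P ^ 2 := by
      apply pow_le_pow_left₀ (by linarith) h2
    nlinarith

section

variable (y : ℤ)

/-- `α = y + √(y²-1)`. -/
def al : ℤ√(y ^ 2 - 1) := ⟨y, 1⟩

/-- `ᾱ = y - √(y²-1)`. -/
def al' : ℤ√(y ^ 2 - 1) := ⟨y, -1⟩

lemma al_mul : al y * al' y = 1 := by
  ext <;> simp [al, al'] <;> ring

lemma al_pow (n : ℕ) : al y ^ n = ⟨T y n, u y n⟩ := by
  induction n with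
  | zero => ext <;> simp
  | succ n ih =>
    rw [pow_succ (al y), ih, T_succ, u_succ]
    ext <;> simp [al] <;> ring

lemma al'_pow (n : ℕ) : al' y ^ n = ⟨T y n, -u y n⟩ := by
  induction n with
  | zero => ext <;> simp
  | succ n ih =>
    rw [pow_succ (al' y), ih, T_succ, u_succ]
    ext <;> simp [al'] <;> ring

/-- `c = θ² = 1 - ᾱ`. -/
def cc : ℤ√(y ^ 2 - 1) := 1 - al' y

lemma al_cc : al y * cc y = al y - 1 := by
  rw [cc, mul_sub, al_mul, mul_one]

/-- The quartic order. -/
abbrev OO := QuadraticAlgebra (ℤ√(y ^ 2 - 1)) (cc y) 0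

/-- `ω = 2α - 1 + 2αθ`. -/
def om : OO y := ⟨2 * al y - 1, 2 * al y⟩

/-- `ω⁻¹`. -/
def om' : OO y := ⟨2 * al y - 1, -(2 * al y)⟩

lemma om_mul : om y * om' y = 1 := by
  have h := al_cc y
  ext1
  · simp [om, om', QuadraticAlgebra.re_one]
    linear_combination (-4 * al y) * h
  · simp [om, om', QuadraticAlgebra.im_one]
    ring

lemma om_pow (n : ℕ) : om y ^ n = ⟨T (2 * al y - 1) n, 2 * al y * u (2 * al y - 1) n⟩ := by
  have h := al_cc y
  induction n with
  | zero => ext1 <;> simp [QuadraticAlgebra.re_one, QuadraticAlgebra.im_one]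
  | succ n ih =>
    rw [pow_succ (om y), ih, T_succ, u_succ]
    ext1
    · simp [om]
      linear_combination (4 * al y * u (2 * al y - 1) n) * h
    · simp [om]
      ring

/-- Relative norm. -/
def nm (x : OO y) : ℤ√(y ^ 2 - 1) := x.re ^ 2 - cc y * x.im ^ 2

lemma nm_mul (x z : OO y) : nm y (x * z) = nm y x * nm y z := by
  simp [nm]; ring

lemma nm_one : nm y 1 = 1 := by simp [nm, QuadraticAlgebra.re_one, QuadraticAlgebra.im_one]

lemma nm_pow (x : OO y) (n : ℕ) : nm y (x ^ n) = nm y x ^ n := by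
  induction n with
  | zero => simp [nm_one]
  | succ n ih => rw [pow_succ x, nm_mul, ih, pow_succ (nm y x)]

lemma nm_om' : nm y (om' y) = 1 := by
  have h := al_cc y
  simp [nm, om']
  linear_combination (-4 * al y) * h

end

section real

variable {y : ℤ} (hy : 2 ≤ y)

lemma D_nonneg (hy : 2 ≤ y) : 0 ≤ y ^ 2 - 1 := by nlinarith

/-- The real embedding of `ℤ√(y²-1)`. -/
noncomputable def E (hy : 2 ≤ y) : ℤ√(y ^ 2 - 1) →+* ℝ := Zsqrtd.toReal (D_nonneg hy)

lemma E_apply (p : ℤ√(y ^ 2 - 1)) : E hy p = p.re + p.im * √((y ^ 2 - 1 : ℤ) : ℝ) := by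
  simp [E, Zsqrtd.toReal]

include hy in
lemma sqrtD_sq : √((y ^ 2 - 1 : ℤ) : ℝ) ^ 2 = (y : ℝ) ^ 2 - 1 := by
  rw [Real.sq_sqrt]
  · push_cast; ring
  · exact_mod_cast D_nonneg hy

include hy in
lemma sqrtD_ge : (1.7 : ℝ) ≤ √((y ^ 2 - 1 : ℤ) : ℝ) := by
  apply Real.le_sqrt_of_sq_le
  have : (2 : ℝ) ≤ y := by exact_mod_cast hy
  push_cast
  nlinarith

lemma E_al_ge : (3.7 : ℝ) ≤ E hy (al y) := by
  have h1 := sqrtD_ge hy
  have h2 : (2 : ℝ) ≤ y := by exact_mod_cast hy
  rw [E_apply]
  simp only [al]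
  push_cast at h1 ⊢
  linarith

lemma E_al_mul : E hy (al y) * E hy (al' y) = 1 := by
  rw [← map_mul, al_mul, map_one]

lemma E_al'_eq : E hy (al' y) = 1 / E hy (al y) := by
  have := E_al_ge hy
  rw [eq_div_iff (by linarith), mul_comm]
  exact E_al_mul hy

lemma E_cc : E hy (cc y) = 1 - 1 / E hy (al y) := by
  rw [cc, map_sub, map_one, E_al'_eq]

lemma E_cc_pos : 0 < E hy (cc y) := by
  have h := E_al_ge hy
  rw [E_cc]
  have : 1 / E hy (al y) < 1 := by rw [div_lt_one (by linarith)]; linarith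
  linarith

lemma E_cc_lt : E hy (cc y) < 1 := by
  have h := E_al_ge hy
  rw [E_cc]
  have : 0 < 1 / E hy (al y) := by positivity
  linarith

/-- `θ`. -/
noncomputable def th (hy : 2 ≤ y) : ℝ := √(E hy (cc y))

lemma th_sq : th hy ^ 2 = E hy (cc y) := Real.sq_sqrt (E_cc_pos hy).le

lemma th_pos : 0 < th hy := Real.sqrt_pos.mpr (E_cc_pos hy)

lemma th_lt : th hy < 1 := by
  have h1 := th_sq hy
  have h2 := E_cc_lt hy
  have h3 := th_pos hy
  nlinarith

/-- Real embedding of the quartic order. -/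
noncomputable def ph (hy : 2 ≤ y) (x : OO y) : ℝ := E hy x.re + th hy * E hy x.im

lemma ph_mul (x z : OO y) : ph hy (x * z) = ph hy x * ph hy z := by
  have h := th_sq hy
  simp only [ph, QuadraticAlgebra.re_mul, QuadraticAlgebra.im_mul, map_add, map_mul, map_zero]
  linear_combination (-(E hy x.im * E hy z.im)) * h

lemma ph_one : ph hy 1 = 1 := by
  simp [ph, QuadraticAlgebra.re_one, QuadraticAlgebra.im_one]

lemma ph_pow (x : OO y) (n : ℕ) : ph hy (x ^ n) = ph hy x ^ n := by
  induction n with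
  | zero => simp [ph_one]
  | succ n ih => rw [pow_succ x, ph_mul, ih, pow_succ (ph hy x)]

lemma E_star_al : E hy (star (al y)) = 1 / E hy (al y) := by
  rw [← E_al'_eq]
  congr 1

/-- Fundamental domain: a unit of relative norm one with real value in
`[ω^{-1/2}, ω^{1/2}]` is `1`. -/
lemma unit_small (x : OO y) (hN : nm y x = 1) (hpos : 0 < ph hy x)
    (hlo : 1 ≤ ph hy x ^ 2 * ((1 + th hy) ^ 2 * E hy (al y)))
    (hhi : ph hy x ^ 2 ≤ (1 + th hy) ^ 2 * E hy (al y)) : x = 1 := by
  obtain ⟨p, q⟩ := x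
  set A := E hy (al y) with hA
  have hAge : (3.7 : ℝ) ≤ A := E_al_ge hy
  have hAinv : E hy (cc y) = 1 - 1 / A := E_cc hy
  set t := th hy with ht
  have ht2 : t ^ 2 = 1 - 1 / A := by rw [← hAinv]; exact th_sq hy
  have ht2A : A * t ^ 2 = A - 1 := by rw [ht2]; field_simp
  have htpos : 0 < t := th_pos hy
  have htlt : t < 1 := th_lt hy
  simp only [nm] at hN
  simp only [ph] at hpos hlo hhi
  set P := E hy p with hP
  set Q := E hy q with hQ
  -- norm equation in the real embedding
  have hN1 : P ^ 2 - t ^ 2 * Q ^ 2 = 1 := by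
    have := congrArg (E hy) hN
    rw [map_sub, map_mul, map_pow, map_pow, map_one, hAinv, ← ht2] at this
    exact this
  -- norm equation in the conjugate embedding
  have hN2 : E hy (star p) ^ 2 + (A - 1) * E hy (star q) ^ 2 = 1 := by
    have h1 := congrArg (fun z => E hy (star z)) hN
    simp only [star_sub, star_mul', star_pow, star_one, map_sub, map_mul, map_pow, map_one] at h1
    have h2 : E hy (star (cc y)) = 1 - A := by
      have : star (cc y) = 1 - al y := by
        ext <;> simp [cc, al, al']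
      rw [this, map_sub, map_one]
    rw [h2] at h1
    linarith
  -- z and its conjugate
  set z := P + t * Q with hz
  have hzz : z * (P - t * Q) = 1 := by rw [hz]; linear_combination hN1
  have hz'pos : 0 < P - t * Q := by
    by_contra hcon
    push Not at hcon
    nlinarith
  set z' := P - t * Q with hz'
  have hsum : 2 * P = z + z' := by rw [hz, hz']; ring
  have hP1 : 1 ≤ P := by nlinarith [sq_nonneg (z - z')]
  -- bound for P^2
  have hsprod : ((1 + t) ^ 2 * A) * ((1 - t) ^ 2 * A) = 1 := by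
    have : ((1 + t) ^ 2 * A) * ((1 - t) ^ 2 * A) = (A - A * t ^ 2) ^ 2 := by ring
    rw [this, ht2A]; ring
  have hz'2 : z' ^ 2 * z ^ 2 = 1 := by
    have : z' ^ 2 * z ^ 2 = (z * z') ^ 2 := by ring
    rw [this, hzz]; ring
  have hspos : 0 < (1 + t) ^ 2 * A := by positivity
  have hz2pos : 0 < z ^ 2 := by positivity
  have hsum2 : z ^ 2 + z' ^ 2 ≤ (1 + t) ^ 2 * A + (1 - t) ^ 2 * A := by
    -- (s - x)(x s - 1) ≥ 0 with x = z^2
    set s := (1 + t) ^ 2 * A with hs
    set s' := (1 - t) ^ 2 * A with hs'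
    have h1 : 0 ≤ (s - z ^ 2) * (z ^ 2 * s - 1) :=
      mul_nonneg (by linarith) (by linarith)
    have h2 : 0 ≤ (s - z ^ 2) * (z ^ 2 * s - 1) * (s' * z' ^ 2) := by
      apply mul_nonneg h1
      positivity
    have h3 : (s - z ^ 2) * (z ^ 2 * s - 1) * (s' * z' ^ 2) = s + s' - z ^ 2 - z' ^ 2 := by
      have e1 : (s - z ^ 2) * (z ^ 2 * s - 1) * (s' * z' ^ 2)
          = s * (z' ^ 2 * z ^ 2) * (s * s') - (s * s') * z' ^ 2
            - (s * s') * (z' ^ 2 * z ^ 2) * z ^ 2 + s' * (z' ^ 2 * z ^ 2) := by ring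
      rw [e1, hsprod, hz'2]; ring
    linarith
  have hPA : P ^ 2 ≤ A := by
    have h4 : 4 * P ^ 2 = z ^ 2 + z' ^ 2 + 2 := by
      have : (2 * P) ^ 2 = (z + z') ^ 2 := by rw [hsum]
      nlinarith
    nlinarith
  have hP' : E hy (star p) ^ 2 ≤ 1 := by nlinarith [sq_nonneg (E hy (star q))]
  have hdiff : P - E hy (star p) = p.im * (A - 1 / A) := by
    have hA1 : A - 1 / A = 2 * √((y ^ 2 - 1 : ℤ) : ℝ) := by
      rw [hA, ← E_al'_eq, E_apply, E_apply]
      simp only [al, al']
      push_cast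
      ring
    rw [hA1, hP, E_apply, E_apply]
    simp only [Zsqrtd.re_star, Zsqrtd.im_star]
    push_cast
    ring
  have him : p.im = 0 := key_real A P _ p.im hAge hdiff hP1 hPA hP'
  have hPP' : P = E hy (star p) := by
    rw [him] at hdiff
    push_cast at hdiff
    linarith
  have hPone : P = 1 := by nlinarith
  have hQ0 : Q = 0 := by
    have : t ^ 2 * Q ^ 2 = 0 := by rw [hPone] at hN1; linarith
    rcases mul_eq_zero.mp this with h | h
    · exact absurd h (by positivity)
    · exact pow_eq_zero_iff (two_ne_zero) |>.mp h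
  have hq' : E hy (star q) = 0 := by
    rw [← hPP', hPone] at hN2
    have h5 : (A - 1) * E hy (star q) ^ 2 = 0 := by linarith
    rcases mul_eq_zero.mp h5 with h | h
    · linarith
    · exact pow_eq_zero_iff (two_ne_zero) |>.mp h
  have hs := sqrtD_ge hy
  -- conclude coordinates
  have hpre : p.re = 1 := by
    have : (p.re : ℝ) = 1 := by
      rw [hP, E_apply, him] at hPone
      push_cast at hPone
      linarith
    exact_mod_cast this
  have hq1 : (q.re : ℝ) + q.im * √((y ^ 2 - 1 : ℤ) : ℝ) = 0 := by rw [← E_apply hy]; exact hQ0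
  have hq2 : (q.re : ℝ) - q.im * √((y ^ 2 - 1 : ℤ) : ℝ) = 0 := by
    rw [E_apply] at hq'
    simp only [Zsqrtd.re_star, Zsqrtd.im_star] at hq'
    push_cast at hq' ⊢
    linarith
  have hqre : q.re = 0 := by
    have : (q.re : ℝ) = 0 := by linarith
    exact_mod_cast this
  have hqim : q.im = 0 := by
    have : (q.im : ℝ) * √((y ^ 2 - 1 : ℤ) : ℝ) = 0 := by linarith
    rcases mul_eq_zero.mp this with h | h
    · exact_mod_cast h
    · linarith
  have hp1 : p = 1 := by ext <;> simp [hpre, him]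
  have hq0 : q = 0 := by ext <;> simp [hqre, hqim]
  ext1
  · simpa [QuadraticAlgebra.re_one] using hp1
  · simpa [QuadraticAlgebra.im_one] using hq0

lemma ph_om : ph hy (om y) = (1 + th hy) ^ 2 * E hy (al y) := by
  have h := th_sq hy
  have h2 : E hy (al y) * E hy (cc y) = E hy (al y) - 1 := by
    rw [← map_mul, al_cc, map_sub, map_one]
  simp only [ph, om, map_sub, map_mul, map_one, map_ofNat]
  linear_combination (-(E hy (al y))) * h - h2

/-- Units of relative norm one with real value at least one are powers of `ω`. -/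
lemma unit_group (x : OO y) (hN : nm y x = 1) (hx : 1 ≤ ph hy x) : ∃ n : ℕ, x = om y ^ n := by
  have hAge := E_al_ge hy
  have htpos := th_pos hy
  have hom := ph_om hy
  set A := E hy (al y) with hA
  set t := th hy with ht
  have hsq : 0 ≤ (1 + t) ^ 2 * A := by positivity
  set s := √((1 + t) ^ 2 * A) with hs
  have hs2 : s ^ 2 = (1 + t) ^ 2 * A := Real.sq_sqrt hsq
  have hom1 : 1 < (1 + t) ^ 2 * A := by nlinarith
  have hs1 : 1 ≤ s := by
    rw [hs]; exact Real.one_le_sqrt.mpr hom1.le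
  have hspos : 0 < s := by linarith
  obtain ⟨n, hn1, hn2⟩ := exists_nat_pow_near (x := ph hy x * s) (y := (1 + t) ^ 2 * A)
    (by nlinarith) hom1
  refine ⟨n, ?_⟩
  have hWpos : 0 < ((1 + t) ^ 2 * A) ^ n := by positivity
  have hom'om : ph hy (om' y) * ph hy (om y) = 1 := by
    rw [← ph_mul, mul_comm, om_mul, ph_one]
  have hphi : ph hy (x * om' y ^ n) * ((1 + t) ^ 2 * A) ^ n = ph hy x := by
    rw [ph_mul, ph_pow, ← hom, mul_assoc, ← mul_pow, hom'om, one_pow, mul_one]
  have hxpos : 0 < ph hy x := by linarith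
  have hζpos : 0 < ph hy (x * om' y ^ n) := by
    by_contra hcon
    push Not at hcon
    have := mul_nonpos_of_nonpos_of_nonneg hcon hWpos.le
    linarith
  have h1 : x * om' y ^ n = 1 := by
    apply unit_small hy
    · rw [nm_mul, hN, nm_pow, nm_om', one_pow, one_mul]
    · exact hζpos
    · -- lower bound
      rw [← hs2]
      have hle : 1 ≤ ph hy (x * om' y ^ n) * s := by
        by_contra hcon
        push Not at hcon
        have : ph hy x * s < ((1 + t) ^ 2 * A) ^ n := by
          rw [← hphi]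
          nlinarith
        linarith
      have : (ph hy (x * om' y ^ n)) ^ 2 * s ^ 2 = (ph hy (x * om' y ^ n) * s) ^ 2 := by ring
      rw [this]
      nlinarith
    · have hlt : ph hy (x * om' y ^ n) * s < (1 + t) ^ 2 * A := by
        by_contra hcon
        push Not at hcon
        have : ((1 + t) ^ 2 * A) ^ (n + 1) ≤ ph hy x * s := by
          rw [← hphi, pow_succ]
          nlinarith
        linarith
      rw [← hs2] at hlt ⊢
      have hlt' : ph hy (x * om' y ^ n) < s := by
        by_contra hcon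
        push Not at hcon
        nlinarith
      nlinarith
  calc x = x * (om y * om' y) ^ n := by rw [om_mul, one_pow, mul_one]
    _ = (x * om' y ^ n) * om y ^ n := by rw [mul_pow]; ring
    _ = om y ^ n := by rw [h1, one_mul]

end real

end Pool.Agent.H381R2
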